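import Pool.Agent.H629.CG.Stm

/-!
# MP_e22585_pr: bounds for the regularised profile
-/

set_option autoImplicit false

namespace Pool.Agent.H728.CG.R2

open Pool.Agent.H629.CG

/-- the two cases of the profile -/
theorem rho_le {r : ℝ → ℝ} {ε d : ℝ} (h : ε ≤ d) : rho r ε d = -Real.log (r d) := by
  unfold rho
  rw [if_pos h]

theorem rho_gt {r : ℝ → ℝ} {ε d : ℝ} (h : d < ε) : rho r ε d = -Real.log (r ε) +
    (1 - d / ε) * (ε * deriv (fun x => Real.log (r x)) ε) := by
  unfold rho
  rw [if_neg (not_le.2 h)]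

/-- the error term -/
theorem err {C ε d x : ℝ} (h0 : 0 ≤ d) (h : d < ε) (hx : |x| ≤ C) :
    (1 - d / ε) * x ≤ C ∧ -C ≤ (1 - d / ε) * x := by
  have hε : 0 < ε := h0.trans_lt h
  have h1 : 0 ≤ d / ε := by positivity
  have h2 : d / ε ≤ 1 := (div_le_one hε).2 h.le
  have h3 : |(1 - d / ε) * x| ≤ C := by
    rw [abs_mul, abs_of_nonneg (by linarith : 0 ≤ 1 - d / ε)]
    have : (1 - d / ε) * |x| ≤ 1 * |x| := mul_le_mul_of_nonneg_right (by linarith) (abs_nonneg _)
    linarith
  rw [abs_le] at h3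
  exact ⟨h3.2, h3.1⟩

theorem log_div_div {d k : ℝ} (hd : 0 < d) (hk : 0 < k) : Real.log (d / (d / k)) = Real.log k := by
  congr 1
  field_simp

theorem t_R2 : S_R1 → S_R2 := by
  intro hR1 r hr
  obtain ⟨hR, C3, hC3, hth⟩ := hR1 r hr
  obtain ⟨C2, hC2, h2⟩ := hR (1 / 2) (by norm_num)
  have hQM : ∀ d' d, 0 < d' → d' ≤ d → d ≤ 1 / 2 →
      Real.log (r d') ≤ Real.log (r d) + C2 := by
    intro d' d h0 h1 h3
    have h4 := (h2 d' d h0 h1 h3).2
    have h5 : 0 ≤ Real.log (d / d') := Real.log_nonneg ((one_le_div h0).2 h1)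
    linarith
  have hA : ∀ δ, 0 < δ → ∃ C, 0 ≤ C ∧
    (∀ k ε d, 1 ≤ k → 0 < ε → ε ≤ 1 / 2 → 0 ≤ d → d ≤ 1 / 2 →
      rho r (ε / k) (d / k) ≤ rho r ε d + (1 + δ) * Real.log k + C) ∧
    (∀ k ε d, 1 ≤ k → 0 < ε → ε ≤ 1 / 2 → 1 / (2 * k) ≤ d → d ≤ 1 / 2 →
      rho r ε d ≤ (1 + δ) * Real.log k + C) ∧
    (∀ t, 0 < t → t ≤ 1 / 2 → -Real.log (r t) ≤ (1 + δ) * Real.log (1 / t) + C) := by
    intro δ hδ
    obtain ⟨C1, hC1, h1⟩ := hR δ hδ
    have hab := neg_abs_le (Real.log (r (1 / 2)))
    have hab' := abs_nonneg (Real.log (r (1 / 2)))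
    refine ⟨C1 + 2 * C3 + |Real.log (r (1 / 2))|, by positivity, ?_, ?_, ?_⟩
    · intro k ε d hk hε hε2 hd hd2
      have hk0 : 0 < k := by linarith
      rcases le_or_gt ε d with h | h
      · have hd0 : 0 < d := hε.trans_le h
        rw [rho_le h, rho_le (div_le_div_of_nonneg_right h hk0.le)]
        have h3 := (h1 (d / k) d (by positivity) (div_le_self hd0.le hk) hd2).1
        rw [log_div_div hd0 hk0] at h3
        linarith
      · rw [rho_gt h, rho_gt (div_lt_div_of_pos_right h hk0)]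
        have h3 := (h1 (ε / k) ε (by positivity) (div_le_self hε.le hk) hε2).1
        rw [log_div_div hε hk0] at h3
        have h4 := (err hd h (hth ε hε hε2)).2
        have h5 := (err (C := C3) (div_nonneg hd hk0.le) (div_lt_div_of_pos_right h hk0)
          (hth (ε / k) (by positivity) ((div_le_self hε.le hk).trans hε2))).1
        linarith
    · intro k ε d hk hε hε2 hd hd2
      have hk0 : 0 < k := by linarith
      have hd0 : 0 < d := lt_of_lt_of_le (by positivity) hd
      have hlog : ∀ x, 0 < x → 1 / (2 * k) ≤ x → Real.log (1 / 2 / x) ≤ Real.log k := by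
        intro x hx hx2
        apply Real.log_le_log (by positivity)
        rw [div_le_iff₀ hx]
        rw [div_le_iff₀ (by positivity)] at hx2
        linarith
      rcases le_or_gt ε d with h | h
      · rw [rho_le h]
        have h3 := (h1 d (1 / 2) hd0 hd2 le_rfl).1
        have h4 := mul_le_mul_of_nonneg_left (hlog d hd0 hd) (by linarith : 0 ≤ 1 + δ)
        linarith
      · rw [rho_gt h]
        have h3 := (h1 ε (1 / 2) hε hε2 le_rfl).1
        have h4 := mul_le_mul_of_nonneg_left (hlog ε hε (hd.trans h.le)) (by linarith : 0 ≤ 1 + δ)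
        have h5 := (err hd0.le h (hth ε hε hε2)).1
        linarith
    · intro t ht ht2
      have h3 := (h1 t (1 / 2) ht ht2 le_rfl).1
      have h4 : Real.log (1 / 2 / t) ≤ Real.log (1 / t) := by
        apply Real.log_le_log (by positivity)
        apply div_le_div_of_nonneg_right (by norm_num) ht.le
      have h5 := mul_le_mul_of_nonneg_left h4 (by linarith : 0 ≤ 1 + δ)
      linarith
  have hB : ∃ C, 0 ≤ C ∧
    (∀ t, 0 < t → t ≤ 1 / 2 → Real.log (r t) ≤ C) ∧
    (∀ ε d, 0 < ε → ε ≤ 1 / 2 → 0 ≤ d → d ≤ 1 / 2 →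
      -C ≤ rho r ε d ∧ rho r ε d ≤ -Real.log (r ε) + C) ∧
    (∀ ε d l, 0 < ε → ε ≤ l → 0 ≤ d → d ≤ l → l ≤ 1 / 2 → -Real.log (r l) - C ≤ rho r ε d) ∧
    (∀ ε d l, 0 < ε → ε ≤ 1 / 2 → 0 ≤ d → d ≤ 1 / 2 → 0 < l → l ≤ 1 / 2 → (l / 2 ≤ ε ∨ l / 2 ≤ d) →
      rho r ε d ≤ -Real.log (r l) + C) := by
    have hab := le_abs_self (Real.log (r (1 / 2)))
    have hab' := abs_nonneg (Real.log (r (1 / 2)))
    have hl2 : 0 ≤ Real.log 2 := Real.log_nonneg (by norm_num)
    have ha : ∀ t, 0 < t → t ≤ 1 / 2 → Real.log (r t) ≤ |Real.log (r (1 / 2))| + C2 := by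
      intro t ht ht2
      have := hQM t (1 / 2) ht ht2 le_rfl
      linarith
    refine ⟨|Real.log (r (1 / 2))| + C2 + C3 + 3 / 2 * Real.log 2, by positivity, ?_, ?_, ?_, ?_⟩
    · intro t ht ht2
      have := ha t ht ht2
      linarith
    · intro ε d hε hε2 hd hd2
      rcases le_or_gt ε d with h | h
      · have hd0 : 0 < d := hε.trans_le h
        rw [rho_le h]
        have h3 := ha d hd0 hd2
        have h4 := hQM ε d hε h hd2
        constructor <;> linarith
      · rw [rho_gt h]
        have h3 := ha ε hε hε2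
        obtain ⟨h4, h5⟩ := err hd h (hth ε hε hε2)
        constructor <;> linarith
    · intro ε d l hε hεl hd hdl hl
      rcases le_or_gt ε d with h | h
      · have hd0 : 0 < d := hε.trans_le h
        rw [rho_le h]
        have h4 := hQM d l hd0 hdl hl
        linarith
      · rw [rho_gt h]
        have h4 := hQM ε l hε hεl hl
        have h5 := (err hd h (hth ε hε (hεl.trans hl))).2
        linarith
    · intro ε d l hε hε2 hd hd2 hl hl2' hor
      have hx : ∀ x, l / 2 ≤ x → x ≤ 1 / 2 →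
          -Real.log (r x) ≤ -Real.log (r l) + C2 + 3 / 2 * Real.log 2 := by
        intro x hx1 hx2
        have hx0 : 0 < x := lt_of_lt_of_le (by positivity) hx1
        rcases le_total l x with h | h
        · have := hQM l x hl h hx2
          linarith
        · have h3 := (h2 x l hx0 h hl2').1
          have h4 : Real.log (l / x) ≤ Real.log 2 := by
            apply Real.log_le_log (by positivity)
            rw [div_le_iff₀ hx0]
            linarith
          linarith
      rcases le_or_gt ε d with h | h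
      · have hd0 : l / 2 ≤ d := by
          rcases hor with h' | h'
          · exact h'.trans h
          · exact h'
        rw [rho_le h]
        have := hx d hd0 hd2
        linarith
      · have hd0 : l / 2 ≤ ε := by
          rcases hor with h' | h'
          · exact h'
          · exact h'.trans h.le
        rw [rho_gt h]
        have h3 := hx ε hd0 hε2
        have h5 := (err hd h (hth ε hε hε2)).1
        linarith
  refine ⟨hA, hB, ?_⟩
  intro ε₁ hε₁
  obtain ⟨CA, -, -, -, hA3⟩ := hA 1 one_pos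
  obtain ⟨CB, -, -, hB2, -⟩ := hB
  refine ⟨(1 + 1) * Real.log (1 / ε₁) + CA + CB, ?_⟩
  intro ε d h1 h3 h4 h5
  have hε : 0 < ε := hε₁.trans_le h1
  have h6 := (hB2 ε d hε h3 h4 h5).2
  have h7 := hA3 ε hε h3
  have h8 : Real.log (1 / ε) ≤ Real.log (1 / ε₁) := by
    apply Real.log_le_log (by positivity)
    exact one_div_le_one_div_of_le hε₁ h1
  linarith

end Pool.Agent.H728.CG.R2
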